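import Pool.Agent.helper19.AR.Basic

/-!
# Aharoni's rainbow cycle conjecture for large `n` (MP_962e14_co): module CVh
-/

namespace Pool.Agent.helper19.AR

/-- module CVh: in the base, a small set of vertices outside of the strand and of the first `r`
strand vertices contains at most as many non-strand colours as non-strand vertices -/
theorem CVh {α β : Type} [DecidableEq α] [DecidableEq β] (r N ℓ : ℕ) (hr : 2 ≤ r) (hN : r < N)
    (S : Sys α β) (u : ℕ → α) (c : ℕ → β) (hG : Good r S) (hP : Perf r N S u c)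
    (hS : Sparse S ℓ) (hℓ : S.V.card + r ≤ N + ℓ)
    (H : Finset α) (hH : H ⊆ S.V) (hHu : ∀ j < N, u j ∉ H) (J : Finset ℕ)
    (hJ : J ⊆ Finset.range N) (F : Finset β)
    (hF : ∀ a ∈ F, a ∈ S.C ∧ (∀ j < N, a ≠ c j) ∧
      ∃ e ∈ S.E a, ∀ x ∈ e, x ∈ H ∨ ∃ j ∈ J, x = u j) :
    F.card ≤ H.card ∧ (F.card = H.card → H.Nonempty → ∃ x ∈ J, x < r) := by
  classical
  set J0 : Finset ℕ := J.filter (· < r) with hJ0
  have hJ0m : ∀ j, j ∈ J0 ↔ j ∈ J ∧ j < r := fun j => by rw [hJ0, Finset.mem_filter]
  have hJN : ∀ j ∈ J, j < N := fun j hj => Finset.mem_range.1 (hJ hj)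
  set A : Finset α := H ∪ J0.image u with hA
  have hinj : Set.InjOn u (J0 : Set ℕ) := fun i hi j hj h =>
    hP.u_inj i (by have := hJN i ((hJ0m i).1 hi).1; omega) j
      (by have := hJN j ((hJ0m j).1 hj).1; omega) h
  have hdisj : Disjoint H (J0.image u) := by
    rw [Finset.disjoint_right]
    intro x hx
    obtain ⟨j, hj, rfl⟩ := Finset.mem_image.1 hx
    exact hHu j (hJN j ((hJ0m j).1 hj).1)
  have hAcard : A.card = H.card + J0.card := by
    rw [hA, Finset.card_union_of_disjoint hdisj, Finset.card_image_of_injOn hinj]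
  have hAV : A ⊆ S.V := by
    intro x hx
    rcases Finset.mem_union.1 hx with h | h
    · exact hH h
    · obtain ⟨j, hj, rfl⟩ := Finset.mem_image.1 h
      exact hP.u_mem j (by have := hJN j ((hJ0m j).1 hj).1; omega)
  -- the size of `A`
  have hAl : A.card ≤ ℓ := by
    set M : Finset α := (Finset.Ico r N).image u with hM
    have hMc : M.card = N - r := by
      rw [hM, Finset.card_image_of_injOn, Nat.card_Ico]
      intro i hi j hj h
      rw [Finset.coe_Ico, Set.mem_Ico] at hi hj
      exact hP.u_inj i (by omega) j (by omega) h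
    have hMV : M ⊆ S.V := by
      intro x hx
      obtain ⟨j, hj, rfl⟩ := Finset.mem_image.1 hx
      rw [Finset.mem_Ico] at hj
      exact hP.u_mem j (by omega)
    have hAM : Disjoint A M := by
      rw [Finset.disjoint_right]
      intro x hx hxA
      obtain ⟨j, hj, rfl⟩ := Finset.mem_image.1 hx
      rw [Finset.mem_Ico] at hj
      rcases Finset.mem_union.1 hxA with h | h
      · exact hHu j hj.2 h
      · obtain ⟨i, hi, hij⟩ := Finset.mem_image.1 h
        have h1 := ((hJ0m i).1 hi).2
        have := hP.u_inj i (by omega) j (by omega) hij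
        omega
    have h1 : A.card + M.card ≤ S.V.card := by
      rw [← Finset.card_union_of_disjoint hAM]
      exact Finset.card_le_card (Finset.union_subset hAV hMV)
    omega
  -- the colours of `F` are inside `A`
  have hFe : ∀ a ∈ F, ∃ e ∈ S.E a, ∀ x ∈ e, x ∈ A := by
    intro a ha
    obtain ⟨haC, hne, e, he, hx⟩ := hF a ha
    refine ⟨e, he, fun x hxe => ?_⟩
    rcases hx x hxe with h | ⟨j, hj, rfl⟩
    · exact Finset.mem_union_left _ h
    · by_cases hjr : j < r
      · exact Finset.mem_union_right _ (Finset.mem_image_of_mem _ ((hJ0m j).2 ⟨hj, hjr⟩))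
      · exact absurd hxe (hP.clean a haC hne e he j (by omega) (hJN j hj))
  have hFcol : F ⊆ col S A := by
    intro a ha
    rw [mem_col]
    exact ⟨(hF a ha).1, hFe a ha⟩
  by_cases hJ0e : J0.Nonempty
  · set m := J0.max' hJ0e with hm
    have hmJ : m ∈ J0 := J0.max'_mem hJ0e
    have hAne : A.Nonempty := ⟨u m, Finset.mem_union_right _ (Finset.mem_image_of_mem _ hmJ)⟩
    have hsp := hS A hAV hAne hAl
    have hcinj : Set.InjOn c ((J0.erase m : Finset ℕ) : Set ℕ) := fun i hi j hj h =>
      hP.c_inj i (hJN i ((hJ0m i).1 (Finset.mem_of_mem_erase hi)).1) j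
        (hJN j ((hJ0m j).1 (Finset.mem_of_mem_erase hj)).1) h
    have hdis2 : Disjoint F ((J0.erase m).image c) := by
      rw [Finset.disjoint_right]
      intro a ha haF
      obtain ⟨j, hj, rfl⟩ := Finset.mem_image.1 ha
      exact (hF _ haF).2.1 j (hJN j ((hJ0m j).1 (Finset.mem_of_mem_erase hj)).1) rfl
    have hsub : F ∪ (J0.erase m).image c ⊆ col S A := by
      refine Finset.union_subset hFcol ?_
      intro a ha
      obtain ⟨j, hj, rfl⟩ := Finset.mem_image.1 ha
      have hj' := Finset.mem_of_mem_erase hj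
      have hjN := hJN j ((hJ0m j).1 hj').1
      have hjm : j < m := lt_of_le_of_ne (J0.le_max' j hj') (Finset.ne_of_mem_erase hj)
      have hmr := ((hJ0m m).1 hmJ).2
      rw [mem_col]
      refine ⟨hP.c_mem j hjN, s(u j, u (j + (m - j))), ?_, ?_⟩
      · rw [hP.c_E j hjN]
        exact ⟨m - j, by omega, by omega, rfl⟩
      · intro x hx
        have h1 : j + (m - j) = m := by omega
        rw [h1] at hx
        rcases Sym2.mem_iff.1 hx with rfl | rfl
        · exact Finset.mem_union_right _ (Finset.mem_image_of_mem _ hj')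
        · exact Finset.mem_union_right _ (Finset.mem_image_of_mem _ hmJ)
    have hc := Finset.card_le_card hsub
    rw [Finset.card_union_of_disjoint hdis2, Finset.card_image_of_injOn hcinj,
      Finset.card_erase_of_mem hmJ] at hc
    have hpos : 0 < J0.card := Finset.card_pos.2 hJ0e
    refine ⟨by omega, fun _ _ => ?_⟩
    obtain ⟨x, hx⟩ := hJ0e
    exact ⟨x, ((hJ0m x).1 hx).1, ((hJ0m x).1 hx).2⟩
  · have hJ0' : J0 = ∅ := Finset.not_nonempty_iff_eq_empty.1 hJ0e
    have hAH : A = H := by rw [hA, hJ0', Finset.image_empty, Finset.union_empty]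
    rw [hAH] at hFcol hAV hAl hFe
    by_cases hHe : H.Nonempty
    · have h1 := hS H hAV hHe hAl
      have h2 := Finset.card_le_card hFcol
      exact ⟨by omega, fun h => by omega⟩
    · have hH0 : H = ∅ := Finset.not_nonempty_iff_eq_empty.1 hHe
      have hF0 : F = ∅ := by
        rw [Finset.eq_empty_iff_forall_notMem]
        intro a ha
        obtain ⟨e, -, hx⟩ := hFe a ha
        induction e using Sym2.ind with
        | h x y =>
          have := hx x (Sym2.mem_mk_left x y)
          rw [hH0] at this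
          exact absurd this (Finset.notMem_empty x)
      rw [hF0, hH0]
      exact ⟨le_rfl, fun _ h => absurd h Finset.not_nonempty_empty⟩

end Pool.Agent.helper19.AR
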