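import Pool.Agent.helper19.AR.Defs2

/-!
# Aharoni's rainbow cycle conjecture for large `n` (MP_962e14_co): module PS
-/

namespace Pool.Agent.helper19.AR

/-- module PS: a sub-strand of a perfect strand -/
theorem PS {α β : Type} [DecidableEq α] [DecidableEq β] (r N a N' : ℕ) (S : Sys α β)
    (u : ℕ → α) (c : ℕ → β) (hP : Perf r N S u c) (ha : a + N' ≤ N) :
    Perf r N' S (fun j => u (a + j)) (fun j => c (a + j)) := by
  refine ⟨fun j hj => hP.u_mem _ (by omega), fun j hj j' hj' h => ?_, fun j hj => hP.c_mem _ (by omega),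
    fun j hj j' hj' h => ?_, fun j hj e => ?_, ?_⟩
  · have := hP.u_inj (a + j) (by omega) (a + j') (by omega) h
    omega
  · have := hP.c_inj (a + j) (by omega) (a + j') (by omega) h
    omega
  · rw [hP.c_E (a + j) (by omega)]
    simp only [add_assoc]
  · intro a' ha' hne e he j hj1 hj2 hmem
    by_cases h : ∀ j < N, a' ≠ c j
    · exact hP.clean a' ha' h e he (a + j) (by omega) (by omega) hmem
    · push Not at h
      obtain ⟨j0, hj0, rfl⟩ := h
      rw [hP.c_E j0 hj0] at he
      obtain ⟨t, ht1, ht2, rfl⟩ := he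
      have h3 : a + j = j0 ∨ a + j = j0 + t := by
        rcases Sym2.mem_iff.1 hmem with h4 | h4
        · exact Or.inl (hP.u_inj _ (by omega) _ (by omega) h4)
        · exact Or.inr (hP.u_inj _ (by omega) _ (by omega) h4)
      have h5 : a ≤ j0 ∧ j0 < a + N' := by omega
      refine hne (j0 - a) (by omega) ?_
      have h6 : a + (j0 - a) = j0 := by omega
      show c j0 = c (a + (j0 - a))
      rw [h6]

end Pool.Agent.helper19.AR
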