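import Pool.Agent.helper19.AR.Basic
import Pool.Agent.helper72.AR.TRc

/-!
# Aharoni's rainbow cycle conjecture for large `n` (MP_962e14_co): module TR
-/

namespace Pool.Agent.helper19.AR

/-- module TR -/
theorem TR (r n : ℕ) (G : SimpleGraph (Fin n)) (c : Sym2 (Fin n) → Fin n)
    (h : ∀ a, r ≤ {e | e ∈ G.edgeSet ∧ c e = a}.ncard) (ℓ : ℕ)
    (hno : ¬ ∃ (v : Fin n) (p : G.Walk v v), p.IsCycle ∧ (p.edges.map c).Nodup ∧ p.length ≤ ℓ) :
    ∃ S : Sys (Fin n) (Fin n), Good r S ∧ Sparse S ℓ ∧ S.V.card = n := by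
  classical
  have hch : ∀ a : Fin n, ∃ T : Finset (Sym2 (Fin n)),
      (∀ e ∈ T, e ∈ G.edgeSet ∧ c e = a) ∧ T.card = r := by
    intro a
    have h1 : r ≤ (Set.toFinite {e | e ∈ G.edgeSet ∧ c e = a}).toFinset.card := by
      rw [← Set.ncard_eq_toFinset_card]; exact h a
    obtain ⟨T, hT, hc⟩ := Finset.exists_subset_card_eq h1
    exact ⟨T, fun e he => by simpa using hT he, hc⟩
  choose T hT hTc using hch
  refine ⟨⟨Finset.univ, Finset.univ, T⟩, ⟨by simp, fun a _ => ⟨hTc a, fun e he => ⟨?_, by simp⟩⟩⟩,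
    ?_, by simp⟩
  · exact G.not_isDiag_of_mem_edgeSet (hT a e he).1
  · intro A _ hAne hAl
    by_contra hcon
    push Not at hcon
    set S : Sys (Fin n) (Fin n) := ⟨Finset.univ, Finset.univ, T⟩ with hS
    have hed : ∀ a ∈ col S A, ∃ e ∈ T a, ∀ x ∈ e, x ∈ A := fun a ha => ((mem_col S A a).1 ha).2
    have : Nonempty (Sym2 (Fin n)) := ⟨s(hAne.choose, hAne.choose)⟩
    choose! f hf using hed
    set F : Finset (Sym2 (Fin n)) := (col S A).image f with hF
    have hfc : ∀ a ∈ col S A, c (f a) = a := fun a ha => (hT a _ (hf a ha).1).2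
    have hFc : F.card = (col S A).card := by
      rw [hF]
      apply Finset.card_image_of_injOn
      intro a ha b hb hab
      rw [← hfc a ha, ← hfc b hb, hab]
    have hFm : ∀ e ∈ F, e ∈ G.edgeSet ∧ (∀ x ∈ e, x ∈ A) ∧ f (c e) = e := by
      intro e he
      obtain ⟨a, ha, rfl⟩ := Finset.mem_image.1 he
      exact ⟨(hT a _ (hf a ha).1).1, (hf a ha).2, by rw [hfc a ha]⟩
    obtain ⟨v, p, hp, hpl⟩ := TRc A F (fun e he => ⟨G.not_isDiag_of_mem_edgeSet (hFm e he).1,
      (hFm e he).2.1⟩) hAne (by rw [hFc]; exact hcon)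
    have hle : SimpleGraph.fromEdgeSet (F : Set (Sym2 (Fin n))) ≤ G := by
      intro x y hxy
      rw [SimpleGraph.fromEdgeSet_adj] at hxy
      exact (hFm _ (by simpa using hxy.1)).1
    refine hno ⟨v, p.mapLe hle, hp.mapLe hle, ?_, ?_⟩
    · rw [SimpleGraph.Walk.edges_mapLe_eq_edges]
      refine List.Nodup.map_on ?_ hp.edges_nodup
      intro e he e' he' hcc
      have h1 : ∀ e ∈ p.edges, e ∈ F := by
        intro e he
        have h2 := p.edges_subset_edgeSet he
        rw [SimpleGraph.edgeSet_fromEdgeSet] at h2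
        exact h2.1
      rw [← (hFm e (h1 e he)).2.2, ← (hFm e' (h1 e' he')).2.2, hcc]
    · rw [SimpleGraph.Walk.length_map]
      omega

end Pool.Agent.helper19.AR
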